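import Pool.Agent.K1H74.FD.Core
import Pool.Agent.W654.LQ.Dense

/-!
# Connectedness of the finite-dimensional space
-/

set_option autoImplicit false

namespace Pool.Agent.K1H74.FD

open BoundedContinuousFunction Pool.Agent.W361.LQ Filter Topology

/-- the radii: `r` at `n` and `1` elsewhere -/
noncomputable def rad (n : ℕ) (r : unitInterval) : ℕ → unitInterval := fun j => if j = n then r else 1

/-- the point over the real number `t` -/
noncomputable def line (n : ℕ) (r : unitInterval) (t : ℝ) : Pm :=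
  ((t : UnitAddCircle), rad n r, fun j => ((t / M j : ℝ) : UnitAddCircle))

theorem cont_line (n : ℕ) : Continuous fun x : ℝ × unitInterval => line n x.2 x.1 := by
  have hc : Continuous fun t : ℝ => (t : UnitAddCircle) := AddCircle.continuous_mk' (1 : ℝ)
  refine (hc.comp continuous_fst).prodMk (Continuous.prodMk ?_ ?_)
  · refine continuous_pi fun j => ?_
    unfold rad
    by_cases h : j = n
    · simpa [h] using continuous_snd
    · simpa [h] using continuous_const
  · refine continuous_pi fun j => ?_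
    exact hc.comp (continuous_fst.div_const _)

/-- the lines -/
def E (S : Set ℕ) (n : ℕ) : Set Pm :=
  (fun x : ℝ × unitInterval => line n x.2 x.1) '' (Set.univ ×ˢ {r | n ∈ S → r = 1})

theorem preconn_E (S : Set ℕ) (n : ℕ) : IsPreconnected (E S n) := by
  refine IsPreconnected.image ?_ _ (cont_line n).continuousOn
  refine isPreconnected_univ.prod ?_
  by_cases h : n ∈ S
  · have : {r : unitInterval | n ∈ S → r = 1} = {1} := by ext r; simp [h]
    rw [this]; exact isPreconnected_singleton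
  · have : {r : unitInterval | n ∈ S → r = 1} = Set.univ := by ext r; simp [h]
    rw [this]; exact isPreconnected_univ

theorem line_mem (S : Set ℕ) (n : ℕ) (r : unitInterval) (hr : n ∈ S → r = 1) (t : ℝ) :
    line n r t ∈ K1 S := by
  constructor
  · intro j
    refine ⟨Pool.Agent.W381.LQ.nsmul_div (M j) (Pool.Agent.W381.LQ.M_pos j) t, fun hj => ?_⟩
    show rad n r j = 1
    unfold rad
    split_ifs with h
    · subst h; exact hr hj
    · rfl
  · intro j k hjk
    show rad n r j = 1 ∨ rad n r k = 1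
    unfold rad
    by_cases h : j = n
    · right
      rw [if_neg fun h' => hjk (h.trans h'.symm)]
    · left
      rw [if_neg h]

theorem zero_mem_E (S : Set ℕ) (n : ℕ) : line 0 1 0 ∈ E S n := by
  refine ⟨(0, 1), ⟨Set.mem_univ _, fun _ => rfl⟩, ?_⟩
  show line n 1 0 = line 0 1 0
  have : rad n 1 = rad 0 1 := by
    funext j; simp [rad]
  simp only [line, this]

theorem preconn_iUnion (S : Set ℕ) : IsPreconnected (⋃ n, E S n) :=
  isPreconnected_iUnion ⟨line 0 1 0, Set.mem_iInter.2 fun n => zero_mem_E S n⟩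
    fun n => preconn_E S n

theorem angle_eq (m : ℕ) (hm : 0 < m) (t0 : ℝ) (k k' : ℕ) (h : k ≡ k' [MOD m]) :
    (((t0 + k) / m : ℝ) : UnitAddCircle) = (((t0 + k') / m : ℝ) : UnitAddCircle) := by
  have hm' : (m : ℝ) ≠ 0 := by exact_mod_cast hm.ne'
  have h1 : (((t0 + k) / m - (t0 + k') / m : ℝ) : UnitAddCircle) = 0 := by
    rw [AddCircle.coe_eq_zero_iff]
    have h2 : (m : ℤ) ∣ (k : ℤ) - k' := by
      have := (Nat.modEq_iff_dvd.1 h.symm)
      exact this
    obtain ⟨z, hz⟩ := h2
    refine ⟨z, ?_⟩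
    have h3 : (k : ℝ) - k' = m * z := by exact_mod_cast hz
    have h4 : (t0 + k) / m - (t0 + k') / m = ((k : ℝ) - k') / m := by ring
    rw [h4, h3, zsmul_eq_mul, mul_one]
    field_simp
  rw [AddCircle.coe_sub, sub_eq_zero] at h1
  exact h1

theorem K1_closure (S : Set ℕ) : K1 S ⊆ closure (⋃ n, E S n) := by
  intro a ha1
  have ha := ha1.1
  obtain ⟨p, hp⟩ : ∃ p, ∀ n, n ≠ p → a.2.1 n = 1 := by
    by_cases h : ∃ p, a.2.1 p ≠ 1
    · obtain ⟨p, hp⟩ := h
      refine ⟨p, fun n hn => ?_⟩
      rcases ha1.2 n p hn with h1 | h1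
      · exact h1
      · exact absurd h1 hp
    · push Not at h
      exact ⟨0, fun n _ => h n⟩
  have hrad : rad p (a.2.1 p) = a.2.1 := by
    funext j
    unfold rad
    split_ifs with h
    · rw [h]
    · exact (hp j h).symm
  obtain ⟨t, ht0, ht1, ht⟩ := Pool.Agent.W654.LQ.Dense.rep_exists a.1
  have hang : ∀ n, ∃ j : ℕ, a.2.2 n = (((t + j) / M n : ℝ) : UnitAddCircle) := by
    intro n
    apply Pool.Agent.W654.LQ.Dense.angle n t ht1
    rw [(ha n).1, ht]
  choose j hj using hang
  have hcrt : ∀ N : ℕ, ∃ k : ℕ, ∀ i < N, k ≡ j i [MOD M i] := by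
    intro N
    obtain ⟨k, hk⟩ := Nat.chineseRemainderOfFinset j M (Finset.range N)
      (fun i _ => (Pool.Agent.W361.LQ.M_pos i).ne')
      (fun x _ y _ hxy => Nat.coprime_fermatNumber_fermatNumber hxy)
    exact ⟨k, fun i hi => hk i (Finset.mem_range.2 hi)⟩
  choose k hk using hcrt
  have hmem : ∀ N, line p (a.2.1 p) (t + k N) ∈ ⋃ n, E S n := fun N =>
    Set.mem_iUnion.2 ⟨p, (t + k N, a.2.1 p), ⟨Set.mem_univ _, fun h => (ha p).2 h⟩, rfl⟩
  refine mem_closure_of_tendsto (f := fun N => line p (a.2.1 p) (t + k N)) (b := atTop) ?_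
    (Eventually.of_forall hmem)
  have e1 : ∀ N, ((t + k N : ℝ) : UnitAddCircle) = a.1 := by
    intro N
    rw [AddCircle.coe_add, Pool.Agent.W654.LQ.Dense.coe_nat_zero, add_zero, ht]
  have h1 : Tendsto (fun N => ((t + k N : ℝ) : UnitAddCircle)) atTop (𝓝 a.1) := by
    simp only [e1]; exact tendsto_const_nhds
  have h2 : Tendsto (fun _ : ℕ => rad p (a.2.1 p)) atTop (𝓝 a.2.1) := by
    rw [hrad]; exact tendsto_const_nhds
  have h3 : Tendsto (fun N i => (((t + k N) / M i : ℝ) : UnitAddCircle)) atTop (𝓝 a.2.2) := by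
    rw [tendsto_pi_nhds]
    intro i
    refine tendsto_const_nhds.congr' ?_
    filter_upwards [eventually_gt_atTop i] with N hN
    rw [hj i]
    exact angle_eq (M i) (Pool.Agent.W361.LQ.M_pos i) t (j i) (k N) (hk N i hN).symm
  exact h1.prodMk_nhds (h2.prodMk_nhds h3)

theorem connected_K1 (S : Set ℕ) : IsConnected (K1 S) := by
  refine ⟨⟨line 0 1 0, line_mem S 0 1 (fun _ => rfl) 0⟩, ?_⟩
  refine (preconn_iUnion S).subset_closure ?_ (K1_closure S)
  refine Set.iUnion_subset fun n => ?_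
  rintro _ ⟨⟨t, r⟩, ⟨_, hr⟩, rfl⟩
  exact line_mem S n r hr t

theorem connected_X1 (S : Set ℕ) : IsConnected (X1 S) :=
  (connected_K1 S).image _ Pool.Agent.W764.LQ.main.2.continuousOn

end Pool.Agent.K1H74.FD
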