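import Pool.Agent.K1H74.FD.Core
import Pool.Agent.Y26.GE.KUHN

/-!
# The covering dimension of the finite-dimensional space
-/

set_option autoImplicit false

namespace Pool.Agent.K1H74.FD

open BoundedContinuousFunction Pool.Agent.W361.LQ Filter Topology
open Pool.Agent.W952.LP (DimLE)

/-! ## A criterion -/

/-- A compact metric space which for every `ε` has a continuous map to `ℝ ^ q` with fibres of
diameter less than `ε` has covering dimension at most `q`. -/
theorem dimLE_of_maps {X : Type} [MetricSpace X] [CompactSpace X] (q : ℕ)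
    (h : ∀ ε : ℝ, 0 < ε → ∃ G : X → (Fin q → ℝ), Continuous G ∧
      ∀ x y, G x = G y → dist x y < ε) : DimLE X q := by
  intro ι hι U hU hcov
  obtain ⟨δ, hδ, hleb⟩ := lebesgue_number_lemma_of_metric (isCompact_univ (X := X)) hU
    (by rw [hcov])
  obtain ⟨G, hG, hfib⟩ := h δ hδ
  -- a number `η` with the property that close values come from close points
  obtain ⟨η, hη, hclose⟩ : ∃ η : ℝ, 0 < η ∧
      ∀ x y, dist (fun i => unitInterval.sigmoid (G x i)) (fun i => unitInterval.sigmoid (G y i)) ≤ η →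
        dist x y < δ := by
    let H : X → (Fin q → unitInterval) := fun x i => unitInterval.sigmoid (G x i)
    have hH : Continuous H := continuous_pi fun i =>
      unitInterval.continuous_sigmoid.comp ((continuous_apply i).comp hG)
    have hHinj : ∀ x y, H x = H y → G x = G y := by
      intro x y hxy
      funext i
      exact unitInterval.sigmoid_injective (congrFun hxy i)
    let C : Set (X × X) := {z | δ ≤ dist z.1 z.2}
    have hC : IsCompact C :=
      (isClosed_le continuous_const (continuous_fst.dist continuous_snd)).isCompact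
    by_cases hne : C.Nonempty
    · obtain ⟨z, hz, hmin⟩ := hC.exists_isMinOn hne
        (((hH.comp continuous_fst).dist (hH.comp continuous_snd)).continuousOn)
      have hpos : 0 < dist (H z.1) (H z.2) := by
        rw [dist_pos]
        intro heq
        have h1 := hfib _ _ (hHinj _ _ heq)
        exact absurd hz (not_le.2 h1)
      refine ⟨dist (H z.1) (H z.2) / 2, by linarith, fun x y hxy => ?_⟩
      by_contra hcon
      have h2 : dist (H z.1) (H z.2) ≤ dist (H x) (H y) :=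
        hmin (show (x, y) ∈ C from not_lt.1 hcon)
      have h3 : dist (H x) (H y) ≤ dist (H z.1) (H z.2) / 2 := hxy
      linarith
    · refine ⟨1, one_pos, fun x y _ => ?_⟩
      by_contra hcon
      exact hne ⟨(x, y), not_lt.1 hcon⟩
  let H : X → (Fin q → unitInterval) := fun x i => unitInterval.sigmoid (G x i)
  have hH : Continuous H := continuous_pi fun i =>
    unitInterval.continuous_sigmoid.comp ((continuous_apply i).comp hG)
  obtain ⟨n, W, hW1, hW2, hW3, hW4⟩ := Pool.Agent.Y26.GE.t_KUHN q η hη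
  refine ⟨{i : Fin n // (H ⁻¹' W i).Nonempty}, inferInstance, fun k => H ⁻¹' W k.1,
    fun k => (hW1 k.1).preimage hH, ?_, ?_, ?_⟩
  · rw [Set.eq_univ_iff_forall]
    intro x
    obtain ⟨i, hi⟩ := hW3 (H x)
    exact Set.mem_iUnion.2 ⟨⟨i, ⟨x, hi⟩⟩, hi⟩
  · rintro ⟨i, x, hx⟩
    obtain ⟨j, hj⟩ := hleb x (Set.mem_univ x)
    refine ⟨j, fun y hy => hj ?_⟩
    rw [Metric.mem_ball]
    exact hclose y x (hW2 i _ hy _ hx)
  · intro x
    have h4 := hW4 (H x)
    refine le_trans ?_ h4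
    rw [← Nat.card_coe_set_eq]
    refine Nat.card_le_card_of_injective (fun k : {k : {i : Fin n // (H ⁻¹' W i).Nonempty} |
      x ∈ H ⁻¹' W k.1} => (⟨k.1.1, k.2⟩ : {i : Fin n // H x ∈ W i})) ?_
    intro k k' hk
    have h5 : k.1.1 = k'.1.1 := congrArg (fun z : {i : Fin n // H x ∈ W i} => z.1) hk
    exact Subtype.ext (Subtype.ext h5)

/-! ## Combining the angles -/

theorem M_coprime {i j : ℕ} (h : i ≠ j) : IsCoprime (M i : ℤ) (M j : ℤ) := by
  rw [Nat.isCoprime_iff_coprime]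
  exact Nat.coprime_fermatNumber_fermatNumber h

theorem bez_exists (F : Finset ℕ) (hF : F.Nonempty) :
    ∃ μ : ℕ → ℤ, ∑ i ∈ F, μ i * ∏ j ∈ F \ {i}, (M j : ℤ) = 1 := by
  rw [exists_sum_eq_one_iff_pairwise_coprime hF]
  intro i j hij
  exact M_coprime fun h => hij (Subtype.ext h)

open Classical in
/-- Bezout coefficients -/
noncomputable def bez (F : Finset ℕ) : ℕ → ℤ :=
  if h : F.Nonempty then Classical.choose (bez_exists F h) else fun _ => 0

theorem bez_spec (F : Finset ℕ) (hF : F.Nonempty) :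
    ∑ i ∈ F, bez F i * ∏ j ∈ F \ {i}, (M j : ℤ) = 1 := by
  unfold bez
  rw [dif_pos hF]
  exact Classical.choose_spec (bez_exists F hF)

/-- the combined angle -/
noncomputable def th (F : Finset ℕ) (w : ℕ → UnitAddCircle) : UnitAddCircle :=
  ∑ i ∈ F, bez F i • w i

theorem cont_th (F : Finset ℕ) : Continuous (th F) := by
  unfold th
  exact continuous_finsetSum _ fun i _ => (continuous_apply i).zsmul (bez F i)

theorem swap (F : Finset ℕ) (z : UnitAddCircle) (w : ℕ → UnitAddCircle) (h : ∀ n, M n • w n = z)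
    {i m : ℕ} (hi : i ∈ F) (hm : m ∈ F) :
    (∏ j ∈ F \ {m}, (M j : ℤ)) • w i = (∏ j ∈ F \ {i}, (M j : ℤ)) • w m := by
  by_cases him : i = m
  · rw [him]
  · have h1 : ∏ j ∈ F \ {m}, (M j : ℤ) = (∏ j ∈ (F \ {m}) \ {i}, (M j : ℤ)) * M i := by
      have hmem : i ∈ F \ {m} := by simp [hi, him]
      rw [← Finset.prod_sdiff (Finset.singleton_subset_iff.2 hmem), Finset.prod_singleton]
    have h2 : ∏ j ∈ F \ {i}, (M j : ℤ) = (∏ j ∈ (F \ {i}) \ {m}, (M j : ℤ)) * M m := by
      have hmem : m ∈ F \ {i} := by simp [hm, Ne.symm him]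
      rw [← Finset.prod_sdiff (Finset.singleton_subset_iff.2 hmem), Finset.prod_singleton]
    have h3 : (F \ {m}) \ {i} = (F \ {i}) \ {m} := by
      ext j; simp only [Finset.mem_sdiff, Finset.mem_singleton]; tauto
    rw [h1, h2, h3, mul_smul, mul_smul, natCast_zsmul, natCast_zsmul, h i, h m]

theorem th_smul (F : Finset ℕ) (z : UnitAddCircle) (w : ℕ → UnitAddCircle)
    (h : ∀ n, M n • w n = z) {m : ℕ} (hm : m ∈ F) :
    (∏ j ∈ F \ {m}, (M j : ℤ)) • th F w = w m := by
  unfold th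
  rw [Finset.smul_sum]
  have h1 : ∀ i ∈ F, (∏ j ∈ F \ {m}, (M j : ℤ)) • bez F i • w i =
      (bez F i * ∏ j ∈ F \ {i}, (M j : ℤ)) • w m := by
    intro i hi
    rw [smul_comm, swap F z w h hi hm, mul_smul]
  rw [Finset.sum_congr rfl h1, ← Finset.sum_smul, bez_spec F ⟨m, hm⟩, one_smul]

theorem th_inj (F : Finset ℕ) (z z' : UnitAddCircle) (w w' : ℕ → UnitAddCircle)
    (h : ∀ n, M n • w n = z) (h' : ∀ n, M n • w' n = z') (he : th F w = th F w') {m : ℕ}
    (hm : m ∈ F) : w m = w' m := by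
  rw [← th_smul F z w h hm, ← th_smul F z' w' h' hm, he]

theorem th_congr (F : Finset ℕ) (w w' : ℕ → UnitAddCircle) (h : ∀ m ∈ F, w m = w' m) :
    th F w = th F w' := by
  unfold th
  exact Finset.sum_congr rfl fun i hi => by rw [h i hi]

/-! ## The maps -/

/-- the sum of the defects of the radii -/
noncomputable def sm (N : ℕ) (a : Pm) : ℝ := ∑ n ∈ Finset.range N, (1 - (a.2.1 n : ℝ))

/-- the map to `ℝ ^ 6` -/
noncomputable def gm (N : ℕ) (a : Pm) : Fin 6 → ℝ :=
  ![sm N a,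
    (1 - sm N a) * ‖th (Finset.range N) a.2.2‖,
    (1 - sm N a) * ‖th (Finset.range N) a.2.2 + ((1 / 4 : ℝ) : UnitAddCircle)‖,
    ∑ n ∈ Finset.range N, (n : ℝ) * (1 - (a.2.1 n : ℝ)),
    ∑ n ∈ Finset.range N, (1 - (a.2.1 n : ℝ)) * ‖th ((Finset.range N).erase n) a.2.2‖,
    ∑ n ∈ Finset.range N, (1 - (a.2.1 n : ℝ)) *
      ‖th ((Finset.range N).erase n) a.2.2 + ((1 / 4 : ℝ) : UnitAddCircle)‖]

theorem cont_gm (N : ℕ) : Continuous (gm N) := by
  have hr : ∀ n, Continuous fun a : Pm => ((a.2.1 n : unitInterval) : ℝ) := fun n =>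
    continuous_subtype_val.comp ((continuous_apply n).comp (continuous_fst.comp continuous_snd))
  have hw : Continuous fun a : Pm => a.2.2 := continuous_snd.comp continuous_snd
  have ht : ∀ F : Finset ℕ, Continuous fun a : Pm => th F a.2.2 := fun F => (cont_th F).comp hw
  have hs : Continuous (sm N) := by
    unfold sm
    exact continuous_finsetSum _ fun n _ => continuous_const.sub (hr n)
  refine continuous_pi fun i => ?_
  fin_cases i
  · exact hs
  · exact (continuous_const.sub hs).mul (ht _).norm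
  · exact (continuous_const.sub hs).mul ((ht _).add continuous_const).norm
  · show Continuous fun a : Pm => ∑ n ∈ Finset.range N, (n : ℝ) * (1 - (a.2.1 n : ℝ))
    exact continuous_finsetSum _ fun n _ => continuous_const.mul (continuous_const.sub (hr n))
  · show Continuous fun a : Pm => ∑ n ∈ Finset.range N, (1 - (a.2.1 n : ℝ)) *
      ‖th ((Finset.range N).erase n) a.2.2‖
    exact continuous_finsetSum _ fun n _ => (continuous_const.sub (hr n)).mul (ht _).norm
  · show Continuous fun a : Pm => ∑ n ∈ Finset.range N, (1 - (a.2.1 n : ℝ)) *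
      ‖th ((Finset.range N).erase n) a.2.2 + ((1 / 4 : ℝ) : UnitAddCircle)‖
    exact continuous_finsetSum _ fun n _ =>
      (continuous_const.sub (hr n)).mul ((ht _).add continuous_const).norm

/-- in a sum over the radii at most one term is not zero -/
theorem sum_single {S : Set ℕ} {a : Pm} (ha : a ∈ K1 S) (N : ℕ) (p : ℕ) (hp : p < N)
    (hp1 : a.2.1 p ≠ 1) (c : ℕ → ℝ) :
    ∑ n ∈ Finset.range N, c n * (1 - (a.2.1 n : ℝ)) = c p * (1 - (a.2.1 p : ℝ)) := by
  refine Finset.sum_eq_single_of_mem p (Finset.mem_range.2 hp) fun n _ hn => ?_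
  rcases ha.2 n p hn with h | h
  · rw [h]; simp
  · exact absurd h hp1

theorem sum_zero {a : Pm} (N : ℕ) (h : ∀ n < N, a.2.1 n = 1) (c : ℕ → ℝ) :
    ∑ n ∈ Finset.range N, c n * (1 - (a.2.1 n : ℝ)) = 0 := by
  refine Finset.sum_eq_zero fun n hn => ?_
  rw [h n (Finset.mem_range.1 hn)]; simp

theorem sm_eq (N : ℕ) (a : Pm) : sm N a = ∑ n ∈ Finset.range N, (1 : ℝ) * (1 - (a.2.1 n : ℝ)) := by
  simp [sm]

theorem sm_single {S : Set ℕ} {a : Pm} (ha : a ∈ K1 S) (N : ℕ) (p : ℕ) (hp : p < N)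
    (hp1 : a.2.1 p ≠ 1) : sm N a = 1 - (a.2.1 p : ℝ) := by
  rw [sm_eq, sum_single ha N p hp hp1, one_mul]

theorem sm_zero {a : Pm} (N : ℕ) (h : ∀ n < N, a.2.1 n = 1) : sm N a = 0 := by
  rw [sm_eq, sum_zero N h]

theorem sm_ne {S : Set ℕ} {a : Pm} (ha : a ∈ K1 S) (N : ℕ) (p : ℕ) (hp : p < N)
    (hp1 : a.2.1 p ≠ 1) : sm N a ≠ 0 := by
  rw [sm_single ha N p hp hp1]
  intro h
  exact hp1 (Subtype.ext (by
    show (a.2.1 p : ℝ) = 1
    linarith))

/-- the map is well defined on the space -/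
theorem gm_wd {S : Set ℕ} {a b : Pm} (ha : a ∈ K1 S) (hb : b ∈ K1 S) (h : Phi a = Phi b) (N : ℕ) :
    gm N a = gm N b := by
  obtain ⟨_, h1⟩ := Pool.Agent.W168.LQ.main a b h
  have hr : ∀ n, a.2.1 n = b.2.1 n := fun n => (h1 n).1
  have hs : sm N a = sm N b := by simp [sm, hr]
  have e1 : ∀ f : UnitAddCircle → ℝ, (1 - sm N a) * f (th (Finset.range N) a.2.2) =
      (1 - sm N b) * f (th (Finset.range N) b.2.2) := by
    intro f
    rw [← hs]
    by_cases hz : 1 - sm N a = 0
    · rw [hz, zero_mul, zero_mul]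
    · have : th (Finset.range N) a.2.2 = th (Finset.range N) b.2.2 := by
        refine th_congr _ _ _ fun m hm => (h1 m).2 fun hm0 => hz ?_
        have hm1 : a.2.1 m ≠ 1 := by rw [hm0]; exact zero_ne_one
        rw [sm_single ha N m (Finset.mem_range.1 hm) hm1, hm0]
        simp
      rw [this]
  have e2 : ∀ (f : UnitAddCircle → ℝ) (n : ℕ),
      (1 - (a.2.1 n : ℝ)) * f (th ((Finset.range N).erase n) a.2.2) =
      (1 - (b.2.1 n : ℝ)) * f (th ((Finset.range N).erase n) b.2.2) := by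
    intro f n
    rw [← hr n]
    by_cases hn : a.2.1 n = 1
    · rw [hn]; simp
    · have : th ((Finset.range N).erase n) a.2.2 = th ((Finset.range N).erase n) b.2.2 := by
        refine th_congr _ _ _ fun m hm => (h1 m).2 ?_
        rcases ha.2 m n (Finset.ne_of_mem_erase hm) with h2 | h2
        · rw [h2]; exact one_ne_zero
        · exact absurd h2 hn
      rw [this]
  funext i
  fin_cases i
  · exact hs
  · exact e1 fun w => ‖w‖
  · exact e1 fun w => ‖w + ((1 / 4 : ℝ) : UnitAddCircle)‖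
  · show ∑ n ∈ Finset.range N, (n : ℝ) * (1 - (a.2.1 n : ℝ)) =
      ∑ n ∈ Finset.range N, (n : ℝ) * (1 - (b.2.1 n : ℝ))
    simp only [hr]
  · show ∑ n ∈ Finset.range N, (1 - (a.2.1 n : ℝ)) * ‖th ((Finset.range N).erase n) a.2.2‖ =
      ∑ n ∈ Finset.range N, (1 - (b.2.1 n : ℝ)) * ‖th ((Finset.range N).erase n) b.2.2‖
    exact Finset.sum_congr rfl fun n _ => e2 (fun w => ‖w‖) n
  · show ∑ n ∈ Finset.range N, (1 - (a.2.1 n : ℝ)) *
        ‖th ((Finset.range N).erase n) a.2.2 + ((1 / 4 : ℝ) : UnitAddCircle)‖ =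
      ∑ n ∈ Finset.range N, (1 - (b.2.1 n : ℝ)) *
        ‖th ((Finset.range N).erase n) b.2.2 + ((1 / 4 : ℝ) : UnitAddCircle)‖
    exact Finset.sum_congr rfl fun n _ => e2 (fun w => ‖w + ((1 / 4 : ℝ) : UnitAddCircle)‖) n

theorem all_one {S : Set ℕ} {a : Pm} (ha : a ∈ K1 S) (N : ℕ) (h : sm N a = 0) :
    ∀ n < N, a.2.1 n = 1 := by
  intro n hn
  by_contra hne
  exact sm_ne ha N n hn hne h

theorem crd_succ (a : Pm) (n : ℕ) :
    crd a (n + 1) = ((1 / 2 : ℝ) ^ (n + 1)) • co (a.2.1 n : ℝ) (a.2.2 n) := by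
  unfold crd
  rw [if_neg (Nat.succ_ne_zero n), Nat.add_sub_cancel]

theorem crd_zero (a : Pm) : crd a 0 = co 1 a.1 := by
  unfold crd
  rw [if_pos rfl]

/-- the map determines the first coordinates -/
theorem gm_inj {S : Set ℕ} {a b : Pm} (ha : a ∈ K1 S) (hb : b ∈ K1 S) {N : ℕ} (hN : 2 ≤ N)
    (h : gm N a = gm N b) : ∀ i ≤ N, crd a i = crd b i := by
  have hs : sm N a = sm N b := congrFun h 0
  have h1 : (1 - sm N a) * ‖th (Finset.range N) a.2.2‖ =
      (1 - sm N b) * ‖th (Finset.range N) b.2.2‖ := congrFun h 1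
  have h2 : (1 - sm N a) * ‖th (Finset.range N) a.2.2 + ((1 / 4 : ℝ) : UnitAddCircle)‖ =
      (1 - sm N b) * ‖th (Finset.range N) b.2.2 + ((1 / 4 : ℝ) : UnitAddCircle)‖ := congrFun h 2
  have h3 : ∑ n ∈ Finset.range N, (n : ℝ) * (1 - (a.2.1 n : ℝ)) =
      ∑ n ∈ Finset.range N, (n : ℝ) * (1 - (b.2.1 n : ℝ)) := congrFun h 3
  have h4 : ∑ n ∈ Finset.range N, (1 - (a.2.1 n : ℝ)) * ‖th ((Finset.range N).erase n) a.2.2‖ =
      ∑ n ∈ Finset.range N, (1 - (b.2.1 n : ℝ)) * ‖th ((Finset.range N).erase n) b.2.2‖ :=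
    congrFun h 4
  have h5 : ∑ n ∈ Finset.range N, (1 - (a.2.1 n : ℝ)) *
        ‖th ((Finset.range N).erase n) a.2.2 + ((1 / 4 : ℝ) : UnitAddCircle)‖ =
      ∑ n ∈ Finset.range N, (1 - (b.2.1 n : ℝ)) *
        ‖th ((Finset.range N).erase n) b.2.2 + ((1 / 4 : ℝ) : UnitAddCircle)‖ := congrFun h 5
  have hMa : ∀ n, M n • a.2.2 n = a.1 := fun n => (ha.1 n).1
  have hMb : ∀ n, M n • b.2.2 n = b.1 := fun n => (hb.1 n).1
  -- it suffices to compare the first angle, the radii, and the angles of nonzero radius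
  have fin : a.1 = b.1 → (∀ n < N, a.2.1 n = b.2.1 n ∧ (a.2.1 n ≠ 0 → a.2.2 n = b.2.2 n)) →
      ∀ i ≤ N, crd a i = crd b i := by
    intro e1 e2 i hi
    rcases Nat.eq_zero_or_pos i with h0 | h0
    · subst h0
      rw [crd_zero, crd_zero, e1]
    · obtain ⟨n, rfl⟩ : ∃ n, i = n + 1 := ⟨i - 1, by omega⟩
      obtain ⟨e3, e4⟩ := e2 n (by omega)
      rw [crd_succ, crd_succ, e3]
      by_cases hz : a.2.1 n = 0
      · rw [e3] at hz
        rw [hz]
        simp [co]
      · rw [e4 hz]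
  by_cases hz : sm N a = 0
  · have ra := all_one ha N hz
    have rb := all_one hb N (hs ▸ hz)
    rw [← hs, hz, sub_zero, one_mul, one_mul] at h1 h2
    have hth := Pool.Agent.W168.LQ.key h1 h2
    have hw : ∀ m < N, a.2.2 m = b.2.2 m := fun m hm =>
      th_inj _ _ _ _ _ hMa hMb hth (Finset.mem_range.2 hm)
    refine fin ?_ fun n hn => ⟨(ra n hn).trans (rb n hn).symm, fun _ => hw n hn⟩
    rw [← hMa 0, ← hMb 0, hw 0 (by omega)]
  · -- the indices of the exceptional radii
    have hex : ∀ {c : Pm}, c ∈ K1 S → sm N c ≠ 0 → ∃ p, p < N ∧ c.2.1 p ≠ 1 := by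
      intro c _ hcz
      by_contra hcon
      push Not at hcon
      exact hcz (sm_zero N hcon)
    obtain ⟨p, hp, hp1⟩ := hex ha hz
    obtain ⟨q, hq, hq1⟩ := hex hb (hs ▸ hz)
    have sa := sm_single ha N p hp hp1
    have sb := sm_single hb N q hq hq1
    rw [sum_single ha N p hp hp1, sum_single hb N q hq hq1, ← sa, ← sb, ← hs] at h3
    have hpq : p = q := by
      have := mul_right_cancel₀ hz h3
      exact_mod_cast this
    subst hpq
    have hrp : a.2.1 p = b.2.1 p := by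
      apply Subtype.ext
      show (a.2.1 p : ℝ) = (b.2.1 p : ℝ)
      linarith
    have hr : ∀ n < N, a.2.1 n = b.2.1 n := by
      intro n _
      by_cases hnp : n = p
      · rw [hnp, hrp]
      · rcases ha.2 n p hnp with h6 | h6
        · rcases hb.2 n p hnp with h7 | h7
          · rw [h6, h7]
          · exact absurd h7 hq1
        · exact absurd h6 hp1
    have e4 : ∀ (c : Pm) (_ : c ∈ K1 S) (_ : c.2.1 p ≠ 1) (f : UnitAddCircle → ℝ),
        ∑ n ∈ Finset.range N, (1 - (c.2.1 n : ℝ)) * f (th ((Finset.range N).erase n) c.2.2) =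
        sm N c * f (th ((Finset.range N).erase p) c.2.2) := by
      intro c hc hc1 f
      have := sum_single hc N p hp hc1 fun n => f (th ((Finset.range N).erase n) c.2.2)
      rw [sm_single hc N p hp hc1, mul_comm, ← this]
      exact Finset.sum_congr rfl fun n _ => mul_comm _ _
    have f1 := e4 a ha hp1 fun w => ‖w‖
    have f2 := e4 b hb hq1 fun w => ‖w‖
    have f3 := e4 a ha hp1 fun w => ‖w + ((1 / 4 : ℝ) : UnitAddCircle)‖
    have f4 := e4 b hb hq1 fun w => ‖w + ((1 / 4 : ℝ) : UnitAddCircle)‖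
    rw [f1, f2, ← hs] at h4
    rw [f3, f4, ← hs] at h5
    have hth := Pool.Agent.W168.LQ.key (mul_left_cancel₀ hz h4) (mul_left_cancel₀ hz h5)
    have hw : ∀ m < N, m ≠ p → a.2.2 m = b.2.2 m := fun m hm hmp =>
      th_inj _ _ _ _ _ hMa hMb hth (Finset.mem_erase.2 ⟨hmp, Finset.mem_range.2 hm⟩)
    refine fin ?_ fun n hn => ⟨hr n hn, fun hn0 => ?_⟩
    · by_cases h0 : p = 0
      · rw [← hMa 1, ← hMb 1, hw 1 (by omega) (by omega)]
      · rw [← hMa 0, ← hMb 0, hw 0 (by omega) (Ne.symm h0)]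
    · by_cases hnp : n = p
      · subst hnp
        have hz1 : 1 - sm N a ≠ 0 := by
          rw [sa]
          intro h8
          apply hn0
          apply Subtype.ext
          show (a.2.1 n : ℝ) = 0
          linarith
        rw [← hs] at h1 h2
        have hth' := Pool.Agent.W168.LQ.key (mul_left_cancel₀ hz1 h1) (mul_left_cancel₀ hz1 h2)
        exact th_inj _ _ _ _ _ hMa hMb hth' (Finset.mem_range.2 hn)
      · exact hw n hn hnp

theorem dist_Phi_le {a b : Pm} {N : ℕ} (h : ∀ i ≤ N, crd a i = crd b i) :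
    dist (Phi a) (Phi b) ≤ (1 / 2 : ℝ) ^ N := by
  rw [BoundedContinuousFunction.dist_le (by positivity)]
  intro i
  rw [Phi_apply, Phi_apply]
  by_cases hi : i ≤ N
  · rw [h i hi, dist_self]; positivity
  · have h1 := norm_crd_le' a i
    have h2 := norm_crd_le' b i
    have h3 : ((1 : ℝ) / 2) ^ i ≤ (1 / 2) ^ (N + 1) :=
      pow_le_pow_of_le_one (by norm_num) (by norm_num) (by omega)
    have h4 : ((1 : ℝ) / 2) ^ (N + 1) = (1 / 2) ^ N / 2 := by rw [pow_succ]; ring
    have h5 := dist_le_norm_add_norm (crd a i) (crd b i)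
    linarith

theorem dim_X1 (S : Set ℕ) : DimLE (X1 S) 6 := by
  have : CompactSpace (X1 S) := isCompact_iff_compactSpace.1 (X1_compact S)
  have : CompactSpace (K1 S) := isCompact_iff_compactSpace.1 (K1_compact S)
  refine dimLE_of_maps 6 fun ε hε => ?_
  obtain ⟨N0, hN0⟩ := exists_pow_lt_of_lt_one hε (show (1 / 2 : ℝ) < 1 by norm_num)
  let N := max N0 2
  have hN : (1 / 2 : ℝ) ^ N < ε :=
    lt_of_le_of_lt (pow_le_pow_of_le_one (by norm_num) (by norm_num) (le_max_left _ _)) hN0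
  let π : K1 S → X1 S := fun a => ⟨Phi a.1, a.1, a.2, rfl⟩
  have hπc : Continuous π :=
    Continuous.subtype_mk (Pool.Agent.W764.LQ.main.2.comp continuous_subtype_val) _
  have hπs : Function.Surjective π := by
    rintro ⟨_, a, ha, rfl⟩
    exact ⟨⟨a, ha⟩, rfl⟩
  have hq : IsQuotientMap π := hπc.isClosedMap.isQuotientMap hπc hπs
  let G : X1 S → (Fin 6 → ℝ) := fun x => gm N (Classical.choose x.2)
  have hG : ∀ a : K1 S, G (π a) = gm N a.1 := by
    intro a
    have h1 := Classical.choose_spec (π a).2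
    exact gm_wd (S := S) h1.1 a.2 h1.2 N
  refine ⟨G, ?_, fun x y hxy => ?_⟩
  · rw [hq.continuous_iff]
    have : G ∘ π = fun a : K1 S => gm N a.1 := funext hG
    rw [this]
    exact (cont_gm N).comp continuous_subtype_val
  · obtain ⟨a, rfl⟩ := hπs x
    obtain ⟨b, rfl⟩ := hπs y
    rw [hG, hG] at hxy
    have h1 := gm_inj a.2 b.2 (le_max_right _ _) hxy
    exact lt_of_le_of_lt (dist_Phi_le h1) hN

end Pool.Agent.K1H74.FD
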