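import Pool.Agent.K1H74.FD.Seq
import Pool.Agent.K1H74.FD.Conn
import Pool.Agent.K1H74.FD.Dim
import Pool.Agent.W923.LQ.Val
import Pool.Agent.W641.LQ.APX
import Pool.Agent.W19.LQ.FP
import Pool.Agent.W89.LQ.Lt
import Pool.Agent.W918.LQ.CX
import Pool.Agent.W565.LQ.Near
import Pool.Agent.W311.LQ.Init
import Pool.Agent.W924.LQ.BACK
import Pool.Agent.W605.LQ.Forth
import Pool.Agent.W436.LQ.PI
import Pool.Agent.W162.LQ.Tab
import Pool.Agent.W952.LP.Low

/-!
# Assembly
-/

set_option autoImplicit false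

namespace Pool.Agent.K1H74.FD

open BoundedContinuousFunction Pool.Agent.W361.LQ Filter Topology
open Pool.Agent.Helper227 Pool.Agent.H685R3
open Pool.Agent.W952.LP (DimLE Presented CompIn ratVal zero)

/-! ## Approximations by dyadic numbers -/

/-- rounding of `2 ^ k * ratVal u` -/
def rnd (k u : ℕ) : ℕ := (2 ^ (k + 1) * u.unpair.1 + (u.unpair.2 + 1)) / (2 * (u.unpair.2 + 1))

theorem rnd_le (k u : ℕ) : |(rnd k u : ℝ) / 2 ^ k - ratVal u| ≤ 1 / 2 ^ (k + 1) := by
  unfold rnd ratVal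
  set p := u.unpair.1
  set q := u.unpair.2 + 1 with hq
  have hq0 : 0 < q := Nat.succ_pos _
  set A := 2 ^ (k + 1) * p + q with hA
  have h1 : 2 * q * (A / (2 * q)) ≤ A := Nat.mul_div_le A (2 * q)
  have h2 : A < 2 * q * (A / (2 * q)) + 2 * q := Nat.lt_mul_div_succ A (by omega)
  have h1' : (2 : ℝ) * q * ((A / (2 * q) : ℕ) : ℝ) ≤ 2 ^ (k + 1) * p + q := by
    exact_mod_cast h1
  have h2' : (2 : ℝ) ^ (k + 1) * p + q < 2 * q * ((A / (2 * q) : ℕ) : ℝ) + 2 * q := by
    exact_mod_cast h2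
  set r : ℝ := ((A / (2 * q) : ℕ) : ℝ)
  have hqR : (0 : ℝ) < q := by exact_mod_cast hq0
  have e1 : ((u.unpair.2 : ℝ) + 1) = (q : ℝ) := by rw [hq]; push_cast; ring
  rw [e1]
  have e2 : r / 2 ^ k - (p : ℝ) / q = (2 * q * r - 2 ^ (k + 1) * p) / (2 ^ (k + 1) * q) := by
    rw [pow_succ]
    field_simp
  rw [e2, abs_div, abs_of_pos (show (0 : ℝ) < 2 ^ (k + 1) * q by positivity),
    div_le_div_iff₀ (by positivity) (by positivity)]
  have h3 : |2 * q * r - 2 ^ (k + 1) * p| ≤ q := by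
    rw [abs_le]; constructor <;> linarith
  have h4 : (0 : ℝ) < 2 ^ (k + 1) := by positivity
  nlinarith

theorem p_rnd : Primrec fun x : ℕ × ℕ => rnd x.1 x.2 := by
  unfold rnd
  have hpow : Primrec fun n : ℕ => 2 ^ n := by
    refine (Primrec.nat_rec₁ (f := fun _ r => 2 * r) 1
      (Primrec.nat_mul.comp (Primrec.const 2) Primrec.snd)).of_eq fun n => ?_
    induction n with
    | zero => rfl
    | succ n ih => simp only [pow_succ, ← ih]; ring
  have h1 : Primrec fun x : ℕ × ℕ => 2 ^ (x.1 + 1) := hpow.comp (Primrec.succ.comp Primrec.fst)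
  have h2 : Primrec fun x : ℕ × ℕ => x.2.unpair.1 :=
    Primrec.fst.comp (Primrec.unpair.comp Primrec.snd)
  have h3 : Primrec fun x : ℕ × ℕ => x.2.unpair.2 + 1 :=
    Primrec.succ.comp (Primrec.snd.comp (Primrec.unpair.comp Primrec.snd))
  exact Primrec.nat_div.comp (Primrec.nat_add.comp (Primrec.nat_mul.comp h1 h2) h3)
    (Primrec.nat_mul.comp (Primrec.const 2) h3)

theorem comp_aux {R : ℕ × ℕ → ℕ} (hR : Computable R) {a b : ℕ → ℕ} (ha : Computable a)
    (hb : Computable b) : Computable fun m => R (a m, b m) := hR.comp (ha.pair hb)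

theorem exists_dyadic (d : ℕ → ℕ → ℝ) (f : ℕ → ℕ) (hf : CompIn zero f)
    (h : ∀ i j n : ℕ, |d i j - ratVal (f (Nat.pair i (Nat.pair j n)))| ≤ (1 / 2 : ℝ) ^ n) :
    ∃ g : ℕ → ℕ, Computable g ∧
      ∀ i j k : ℕ, |(g (Nat.pair i (Nat.pair j k)) : ℝ) / 2 ^ k - d i j| ≤ 1 / 2 ^ k := by
  have hfc : Computable f := by
    have h0 : TuringReducible (fun n => Part.some (f n)) (fun _ : ℕ => Part.some 0) := hf
    exact TuringReducible.partrec_of_const h0
  refine ⟨fun m => rnd m.unpair.2.unpair.2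
    (f (Nat.pair m.unpair.1 (Nat.pair m.unpair.2.unpair.1 (m.unpair.2.unpair.2 + 1)))), ?_, ?_⟩
  · have p1 : Primrec fun m : ℕ => m.unpair.1 := Primrec.fst.comp Primrec.unpair
    have p2 : Primrec fun m : ℕ => m.unpair.2 := Primrec.snd.comp Primrec.unpair
    have p21 : Primrec fun m : ℕ => m.unpair.2.unpair.1 := p1.comp p2
    have p22 : Primrec fun m : ℕ => m.unpair.2.unpair.2 := p2.comp p2
    have p3 : Primrec fun m : ℕ =>
        Nat.pair m.unpair.1 (Nat.pair m.unpair.2.unpair.1 (m.unpair.2.unpair.2 + 1)) :=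
      Primrec₂.natPair.comp p1 (Primrec₂.natPair.comp p21 (Primrec.succ.comp p22))
    have c1 : Computable fun m : ℕ => f (Nat.pair m.unpair.1
        (Nat.pair m.unpair.2.unpair.1 (m.unpair.2.unpair.2 + 1))) := hfc.comp p3.to_comp
    exact comp_aux (R := fun x : ℕ × ℕ => rnd x.1 x.2) p_rnd.to_comp p22.to_comp c1
  · intro i j k
    simp only [Nat.unpair_pair]
    have h1 := h i j (k + 1)
    have h2 := rnd_le k (f (Nat.pair i (Nat.pair j (k + 1))))
    have h3 : (1 / 2 : ℝ) ^ (k + 1) = 1 / 2 ^ (k + 1) := by rw [one_div_pow]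
    have h4 : (1 : ℝ) / 2 ^ k = 1 / 2 ^ (k + 1) + 1 / 2 ^ (k + 1) := by
      rw [pow_succ]; field_simp; norm_num
    rw [h3] at h1
    rw [h4]
    have h5 : (rnd k (f (Nat.pair i (Nat.pair j (k + 1)))) : ℝ) / 2 ^ k - d i j =
        ((rnd k (f (Nat.pair i (Nat.pair j (k + 1)))) : ℝ) / 2 ^ k -
          ratVal (f (Nat.pair i (Nat.pair j (k + 1))))) -
        (d i j - ratVal (f (Nat.pair i (Nat.pair j (k + 1))))) := by ring
    rw [h5]
    exact (abs_sub _ _).trans (add_le_add h2 h1)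

/-! ## The presentation of the space -/

theorem p_pow2 : Primrec fun n : ℕ => 2 ^ n := by
  refine (Primrec.nat_rec₁ (f := fun _ r => 2 * r) 1
    (Primrec.nat_mul.comp (Primrec.const 2) Primrec.snd)).of_eq fun n => ?_
  induction n with
  | zero => rfl
  | succ n ih => simp only [pow_succ, ← ih]; ring

theorem presented1 (D : ℕ → Bool) (T : ℕ → ℕ → Bool)
    (hT1 : TLe (fun m => T m.unpair.1 m.unpair.2) D) (S : Set ℕ)
    (hS : ∀ n, n ∉ S ↔ ∃ y, T n y = true) : Presented D (X1 S) := by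
  have hcX : CompactSpace (X1 S) := isCompact_iff_compactSpace.1 (X1_compact S)
  refine ⟨inferInstance, rfl, inferInstance, fun k => pt1 S (pm (sq1 T k)) (mem_K1 S T hS k), ?_,
    fun m : ℕ => Nat.pair (F (sq1 T m.unpair.1) (sq1 T m.unpair.2.unpair.1) m.unpair.2.unpair.2)
      (2 ^ m.unpair.2.unpair.2 - 1), ?_, ?_⟩
  · rw [Metric.denseRange_iff]
    rintro ⟨_, a, ha, rfl⟩ r hr
    obtain ⟨k, hk⟩ := dense1 S T hS a ha r hr
    exact ⟨k, hk⟩
  · have hG : Primrec fun x : Cd × Cd × ℕ => Nat.pair (F x.1 x.2.1 x.2.2) (2 ^ x.2.2 - 1) :=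
      Primrec₂.natPair.comp Pool.Agent.W19.LQ.main
        (Primrec.nat_sub.comp (p_pow2.comp (Primrec.snd.comp Primrec.snd)) (Primrec.const 1))
    exact comp' (G := fun c c' k => Nat.pair (F c c' k) (2 ^ k - 1)) hG (nm1 D T hT1)
  · intro i j n
    simp only [Nat.unpair_pair]
    have h1 := Pool.Agent.W641.LQ.apx Pool.Agent.W923.LQ.Val.main (sq1 T i) (sq1 T j) n
    have h2 : ratVal (Nat.pair (F (sq1 T i) (sq1 T j) n) (2 ^ n - 1)) =
        (F (sq1 T i) (sq1 T j) n : ℝ) / 2 ^ n := by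
      unfold ratVal
      simp only [Nat.unpair_pair]
      have h3 : ((2 ^ n - 1 : ℕ) : ℝ) + 1 = 2 ^ n := by
        have : 2 ^ n - 1 + 1 = 2 ^ n := Nat.sub_add_cancel Nat.one_le_two_pow
        exact_mod_cast this
      rw [h3]
    rw [h2, abs_sub_comm, one_div_pow]
    exact h1

/-! ## No computable presentation -/

theorem no_presentation (D : ℕ → Bool) (hD : ¬ TLe (jump D) (jump zero)) (Y : Type)
    [tY : TopologicalSpace Y] (hY : Presented zero Y)
    (φ : X1 {n | jump D n = false} ≃ₜ Y) : False := by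
  obtain ⟨m, ht, hcomp, y, hy, f0, hf0, hf1⟩ := hY
  subst ht
  let S : Set ℕ := {n | jump D n = false}
  obtain ⟨h, hh1, hh2⟩ := exists_dyadic (fun i j => m.dist (y i) (y j)) f0 hf0 hf1
  have hcX : CompactSpace (X1 S) := isCompact_iff_compactSpace.1 (X1_compact S)
  have hcQ : CompactSpace Y := φ.compactSpace
  obtain ⟨f, hf1, hf2⟩ := div1 S
  let f' : C(Y, UnitAddCircle) := ⟨fun q => f (φ.symm q), f.continuous.comp φ.symm.continuous⟩
  obtain ⟨C, d, hC⟩ := Pool.Agent.W311.LQ.main Y y hy f'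
  obtain ⟨hL, hG⟩ := Pool.Agent.W89.LQ.Lt.main (fun i j => dist (y i) (y j)) h hh1 hh2
  have key : ∀ n : ℕ, jump D n = false ↔ ∃ (E : List (ℕ × ℕ)) (e : ℕ),
      Cond (LtY y) (GtY y) C d (M n) E e := by
    intro n
    constructor
    · intro hn
      obtain ⟨g, hg⟩ := hf2 n hn
      let g' : C(Y, UnitAddCircle) :=
        ⟨fun q => g (φ.symm q), g.continuous.comp φ.symm.continuous⟩
      exact Pool.Agent.W605.LQ.Forth.main Pool.Agent.W565.LQ.Near.main Y y hy f' g' C d (M n)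
        (Pool.Agent.W361.LQ.M_pos n) hC fun q => hg (φ.symm q)
    · rintro ⟨E, e, hE⟩
      obtain ⟨g', hg'⟩ := Pool.Agent.W924.LQ.BACK.main Pool.Agent.W565.LQ.Near.main Y y hy f' C d
        (M n) (Pool.Agent.W361.LQ.M_pos n) hC E e hE
      let g : C(X1 S, UnitAddCircle) := ⟨fun x => g' (φ x), g'.continuous.comp φ.continuous⟩
      refine non1 S f g n hf1 fun x => ?_
      have h3 := hg' (φ x)
      simp only [f', ContinuousMap.coe_mk, Homeomorph.symm_apply_apply] at h3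
      exact h3
  refine Pool.Agent.W436.LQ.main D hD ?_
  exact (Pool.Agent.W918.LQ.CX.main (LtY y) (GtY y) hL hG C d).of_eq fun n => (key n).symm

end Pool.Agent.K1H74.FD
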