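import Pool.Agent.K1H74.FD.Core
import Pool.Agent.W654.LQ.Dense
import Pool.Agent.W585.LQ.NM

/-!
# The dense sequence of the finite-dimensional space
-/

set_option autoImplicit false

namespace Pool.Agent.K1H74.FD

open BoundedContinuousFunction Pool.Agent.W361.LQ Filter Topology
open Pool.Agent.Helper227 Pool.Agent.H685R3

/-- the list `L` with all radii except that of number `p` corrected to `1` -/
def mask (p : ℕ) (L : List (ℕ × ℕ)) : List (ℕ × ℕ) :=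
  (List.range L.length).map fun n =>
    ((L.getD n (0, 0)).1, if n = p then (L.getD n (0, 0)).2 else 0)

/-- the raw code with number `k` -/
def raw1 (k : ℕ) : ℕ × ℕ × ℕ × ℕ × List (ℕ × ℕ) :=
  (Encodable.decode (α := ℕ × ℕ × ℕ × ℕ × List (ℕ × ℕ)) k).getD (0, 0, 0, 0, [])

/-- the code of the `k`-th point of the dense sequence -/
def sq1 (T : ℕ → ℕ → Bool) (k : ℕ) : Cd :=
  ((raw1 k).1, (raw1 k).2.1, nm T (raw1 k).2.2.1 (mask (raw1 k).2.2.2.1 (raw1 k).2.2.2.2))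

theorem getD_mask (p : ℕ) (L : List (ℕ × ℕ)) (n : ℕ) : (mask p L).getD n (0, 0) =
    if n < L.length then ((L.getD n (0, 0)).1, if n = p then (L.getD n (0, 0)).2 else 0)
      else (0, 0) := by
  unfold mask
  rw [Pool.Agent.W654.LQ.Dense.getD_map_range]

theorem length_mask (p : ℕ) (L : List (ℕ × ℕ)) : (mask p L).length = L.length := by
  simp [mask]

theorem rr_eq_one (c : Cd) (n : ℕ) (h : (c.2.2.getD n (0, 0)).2 = 0) : (pm c).2.1 n = 1 := by
  apply Subtype.ext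
  show ((rho c n : ℕ) : ℝ) / 2 ^ c.2.1 = 1
  unfold rho
  rw [h, Nat.zero_min, Nat.sub_zero]
  push_cast
  exact div_self (by positivity)

theorem mem_K1 (S : Set ℕ) (T : ℕ → ℕ → Bool) (hT : ∀ n, n ∉ S ↔ ∃ y, T n y = true) (k : ℕ) :
    pm (sq1 T k) ∈ K1 S := by
  constructor
  · intro n
    refine ⟨Pool.Agent.W654.LQ.Dense.smul_angle n _ _, fun hn => ?_⟩
    have hf : fl T n (raw1 k).2.2.1 = false := by
      by_contra h
      rw [Bool.not_eq_false, Pool.Agent.W654.LQ.Dense.fl_true] at h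
      obtain ⟨y, _, hy⟩ := h
      exact (hT n).mpr ⟨y, hy⟩ hn
    apply rr_eq_one
    unfold sq1
    simp only
    rw [Pool.Agent.W654.LQ.Dense.getD_nm, hf]
    split_ifs <;> simp_all
  · intro m n hmn
    have key : ∀ j, j ≠ (raw1 k).2.2.2.1 → (pm (sq1 T k)).2.1 j = 1 := by
      intro j hj
      apply rr_eq_one
      unfold sq1
      simp only
      rw [Pool.Agent.W654.LQ.Dense.getD_nm, getD_mask]
      split_ifs <;> simp_all
    by_cases h : m = (raw1 k).2.2.2.1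
    · right
      exact key n fun h' => hmn (h.trans h'.symm)
    · left
      exact key m h

theorem dense1 (S : Set ℕ) (T : ℕ → ℕ → Bool) (hT : ∀ n, n ∉ S ↔ ∃ y, T n y = true) :
    ∀ a ∈ K1 S, ∀ ε : ℝ, 0 < ε → ∃ k, dist (Phi a) (Phi (pm (sq1 T k))) < ε := by
  intro a ha1 ε hε
  have ha := ha1.1
  obtain ⟨p, hp⟩ : ∃ p, ∀ n, n ≠ p → a.2.1 n = 1 := by
    by_cases h : ∃ p, a.2.1 p ≠ 1
    · obtain ⟨p, hp⟩ := h
      refine ⟨p, fun n hn => ?_⟩
      rcases ha1.2 n p hn with h1 | h1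
      · exact h1
      · exact absurd h1 hp
    · push Not at h
      exact ⟨0, fun n _ => h n⟩
  obtain ⟨N, hN⟩ := exists_pow_lt_of_lt_one (show (0 : ℝ) < ε / 4 by linarith)
    (show (1 / 2 : ℝ) < 1 by norm_num)
  obtain ⟨l, hl⟩ := exists_pow_lt_of_lt_one (show (0 : ℝ) < ε / 4 by linarith)
    (show (1 / 2 : ℝ) < 1 by norm_num)
  obtain ⟨t, ht0, ht1, ht⟩ := Pool.Agent.W654.LQ.Dense.rep_exists a.1
  have hang : ∀ n, ∃ j : ℕ, a.2.2 n = (((t + j) / M n : ℝ) : UnitAddCircle) := by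
    intro n
    apply Pool.Agent.W654.LQ.Dense.angle n t ht1
    rw [(ha n).1, ht]
  choose j hj using hang
  have hex : ∀ n, ∃ y, n ∉ S → T n y = true := by
    intro n
    by_cases h : n ∈ S
    · exact ⟨0, fun h' => absurd h h'⟩
    · obtain ⟨y, hy⟩ := (hT n).mp h
      exact ⟨y, fun _ => hy⟩
  choose y hy using hex
  obtain ⟨s, hs⟩ : ∃ s, ∀ n < N, y n < s := by
    refine ⟨(Finset.range N).sup (fun n => y n + 1), fun n hn => ?_⟩
    have : y n + 1 ≤ (Finset.range N).sup (fun n => y n + 1) :=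
      Finset.le_sup (f := fun n => y n + 1) (Finset.mem_range.mpr hn)
    omega
  obtain ⟨L, hLlen, hL⟩ : ∃ L : List (ℕ × ℕ), L.length = N ∧ ∀ n < N, L.getD n (0, 0) =
      (j n, ⌊(1 - (a.2.1 n : ℝ)) * 2 ^ l⌋₊) := by
    refine ⟨(List.range N).map (fun n => (j n, ⌊(1 - (a.2.1 n : ℝ)) * 2 ^ l⌋₊)), by simp,
      fun n hn => ?_⟩
    rw [Pool.Agent.W654.LQ.Dense.getD_map_range, if_pos hn]
  obtain ⟨k, hraw⟩ : ∃ k, raw1 k = (⌊t * 2 ^ l⌋₊, l, s, p, L) := by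
    refine ⟨Encodable.encode ((⌊t * 2 ^ l⌋₊, l, s, p, L) : ℕ × ℕ × ℕ × ℕ × List (ℕ × ℕ)), ?_⟩
    unfold raw1
    rw [Encodable.encodek]
    rfl
  have hsq : sq1 T k = (⌊t * 2 ^ l⌋₊, l, nm T s (mask p L)) := by
    unfold sq1
    rw [hraw]
  have hgetD : ∀ n < N, (nm T s (mask p L)).getD n (0, 0) =
      (j n, ⌊(1 - (a.2.1 n : ℝ)) * 2 ^ l⌋₊) := by
    intro n hn
    rw [Pool.Agent.W654.LQ.Dense.getD_nm, length_mask, hLlen, if_pos hn, getD_mask, hLlen,
      if_pos hn, hL n hn]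
    by_cases hnp : n = p
    · by_cases hnS : n ∈ S
      · have e2 : ⌊(1 - (a.2.1 n : ℝ)) * 2 ^ l⌋₊ = 0 := by
          rw [(ha n).2 hnS]
          simp
        simp [e2]
      · have e2 : fl T n s = true := by
          rw [Pool.Agent.W654.LQ.Dense.fl_true]
          exact ⟨y n, hs n hn, hy n hnS⟩
        subst hnp
        simp [e2]
    · have e2 : ⌊(1 - (a.2.1 n : ℝ)) * 2 ^ l⌋₊ = 0 := by
        rw [hp n hnp]
        simp
      simp [e2]
  refine ⟨k, ?_⟩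
  rw [hsq]
  have := Pool.Agent.W654.LQ.Dense.dist_est a (⌊t * 2 ^ l⌋₊, l, nm T s (mask p L)) t N ε j hN hl ht
    hj (Pool.Agent.W654.LQ.Dense.floor_approx t ht0 l) hgetD
  linarith

theorem p_mask : Primrec fun x : ℕ × List (ℕ × ℕ) => mask x.1 x.2 := by
  unfold mask
  refine Primrec.list_map (Primrec.list_range.comp (Primrec.list_length.comp Primrec.snd)) ?_
  have g : Primrec fun z : (ℕ × List (ℕ × ℕ)) × ℕ => z.1.2.getD z.2 (0, 0) :=
    (Primrec.list_getD (0, 0)).comp (Primrec.snd.comp Primrec.fst) Primrec.snd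
  refine Primrec₂.mk ?_
  refine (Primrec.fst.comp g).pair ?_
  exact Primrec.ite (Primrec.eq.comp Primrec.snd (Primrec.fst.comp Primrec.fst))
    (Primrec.snd.comp g) (Primrec.const 0)

theorem p_raw1 : Primrec raw1 :=
  Primrec.option_getD.comp Primrec.decode (Primrec.const (0, 0, 0, 0, []))

theorem nm1_aux (D : ℕ → Bool) (T : ℕ → ℕ → Bool)
    (hT : TLe (fun m => T m.unpair.1 m.unpair.2) D) (r : ℕ → ℕ × ℕ × ℕ × ℕ × List (ℕ × ℕ))
    (hr : Primrec r) :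
    SI D fun x : ℕ × Cd => ((r x.1).1, (r x.1).2.1, nm T (r x.1).2.2.1
      (mask (r x.1).2.2.2.1 (r x.1).2.2.2.2)) = x.2 := by
  have hT' := tLe_iff_SI.1 hT
  obtain ⟨h1, h2⟩ := Pool.Agent.W585.LQ.NM.aux D T hT'
  have r0 : Primrec fun x : ℕ × Cd => r x.1 := hr.comp Primrec.fst
  have r1 : Primrec fun x : ℕ × Cd => (r x.1).2 := Primrec.snd.comp r0
  have r2 : Primrec fun x : ℕ × Cd => (r x.1).2.2 := Primrec.snd.comp r1
  have r3 : Primrec fun x : ℕ × Cd => (r x.1).2.2.2 := Primrec.snd.comp r2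
  have r4 : Primrec fun x : ℕ × Cd => mask (r x.1).2.2.2.1 (r x.1).2.2.2.2 :=
    p_mask.comp r3
  have hr' : Primrec fun x : ℕ × Cd => ((r x.1).1, (r x.1).2.1, (r x.1).2.2.1,
      mask (r x.1).2.2.2.1 (r x.1).2.2.2.2) :=
    (Primrec.fst.comp r0).pair ((Primrec.fst.comp r1).pair ((Primrec.fst.comp r2).pair r4))
  exact Pool.Agent.W585.LQ.NM.aux3 D T h1 h2 (fun x : ℕ × Cd => ((r x.1).1, (r x.1).2.1,
    (r x.1).2.2.1, mask (r x.1).2.2.2.1 (r x.1).2.2.2.2)) (fun x : ℕ × Cd => x.2) hr' Primrec.snd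

theorem nm1 (D : ℕ → Bool) (T : ℕ → ℕ → Bool)
    (hT : TLe (fun m => T m.unpair.1 m.unpair.2) D) :
    SI D fun x : ℕ × Cd => sq1 T x.1 = x.2 :=
  nm1_aux D T hT raw1 p_raw1

end Pool.Agent.K1H74.FD
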